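import Pool.Agent.H458.AG.Loc

/-!
# `S_COMB`: a standard lattice, almost stable under `T`
-/

set_option autoImplicit false
set_option linter.all false

open Polynomial Matrix
open scoped Classical

namespace Pool.Agent.H307.AG458

open Pool.Agent.H458.AG

/-- the form is nondegenerate -/
theorem nondeg {k : Type} [Field k] {V : Type} [AddCommGroup V] [Module k V] {g : ℕ}
    {B : LinearMap.BilinForm k V} (h : Dsc g B) (x : V) (hx : ∀ y, B x y = 0) : x = 0 := by
  obtain ⟨b, s, hs, hdet⟩ := h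
  have hd : (Matrix.of fun i j => B (b i) (b j)).det ≠ 0 := by
    rw [hdet]
    exact mul_ne_zero (pow_ne_zero _ (neg_ne_zero.2 one_ne_zero)) (pow_ne_zero _ hs)
  have h1 : (fun i => b.repr x i) ᵥ* (Matrix.of fun i j => B (b i) (b j)) = 0 := by
    funext j
    have h2 := hx (b j)
    rw [← b.sum_repr x, map_sum, LinearMap.sum_apply] at h2
    simp only [map_smul, LinearMap.smul_apply, smul_eq_mul] at h2
    simp only [Matrix.vecMul, dotProduct, Matrix.of_apply, Pi.zero_apply]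
    exact h2
  have h3 := Matrix.eq_zero_of_vecMul_eq_zero hd h1
  have h4 : b.repr x = 0 := by
    ext i
    exact congrFun h3 i
  exact b.repr.map_eq_zero_iff.1 h4

theorem comb (h1 : Pool.Agent.H458.AG.S_SPLIT) (h2 : Pool.Agent.H458.AG.S_MAX) :
    Pool.Agent.H458.AG.S_COMB := by
  intro g k _ v π hπ h20 hv2 V _ _ _ B hB hD X hX hXi T hT hM c hc
  obtain ⟨M, hMs, hMT, hMI, hMd⟩ := h2 k v π hπ V B hB (nondeg hD) T hT hM
  have hπ0 : π ≠ 0 := by
    rintro rfl
    rw [map_zero] at hπ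
    exact WithZero.exp_ne_zero hπ.symm
  have h22 : v 2 * v 2 ≤ 1 := mul_le_one' hv2 hv2
  have h2s : Sub v {x : V | ∃ y ∈ M, x = (2 : k) • y} := by
    refine ⟨⟨0, hMs.zero, by rw [smul_zero]⟩, ?_, ?_, ?_⟩
    · rintro _ ⟨x, hx, rfl⟩ _ ⟨y, hy, rfl⟩
      exact ⟨x + y, hMs.add x hx y hy, by rw [smul_add]⟩
    · rintro a ha _ ⟨x, hx, rfl⟩
      exact ⟨a • x, hMs.smul a ha x hx, smul_comm _ _ _⟩
    · intro x
      obtain ⟨a, ha, hax⟩ := hMs.span ((2 : k)⁻¹ • x)
      refine ⟨a, ha, a • (2 : k)⁻¹ • x, hax, ?_⟩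
      rw [smul_comm a, smul_smul, mul_inv_cancel₀ h20, one_smul]
  have hI2 : ∀ x y : V, v (B ((2 : k) • x) ((2 : k) • y)) = v 2 * v 2 * v (B x y) := by
    intro x y
    have e : B ((2 : k) • x) ((2 : k) • y) = 2 * 2 * B x y := by
      simp only [map_smul, LinearMap.smul_apply, smul_eq_mul]
      ring
    rw [e, map_mul, map_mul]
  obtain ⟨Λ, hΛ, hΛM⟩ := h1 g k v π hπ h20 V B hB hD X hX hXi _ h2s
    (by
      rintro _ ⟨x, hx, rfl⟩ _ ⟨y, hy, rfl⟩
      rw [hI2]
      exact mul_le_one' h22 (hMI x hx y hy))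
    (by
      rintro _ ⟨x, hx, rfl⟩
      rw [hI2, mul_assoc]
      exact mul_le_of_le_one_right' (mul_le_one' hv2 (hMI x hx x hx)))
  refine ⟨Λ, hΛ, fun z hz i => ?_⟩
  have e1 : π • ((2 : k) • z) ∈ M := by
    refine hMd _ fun y hy => ?_
    have e2 : B ((2 : k) • z) y = B z ((2 : k) • y) := by
      rw [map_smul, map_smul, LinearMap.smul_apply]
    rw [e2, hΛ, dotProduct]
    refine v.map_sum_le fun i _ => ?_
    rw [map_mul]
    refine mul_le_one' (hz i) ?_
    rw [Matrix.mulVec, dotProduct]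
    refine v.map_sum_le fun j _ => ?_
    rw [map_mul]
    refine mul_le_one' ?_ (hΛM _ ⟨y, hy, rfl⟩ j)
    unfold GA
    rw [Matrix.of_apply]
    split_ifs
    · rw [map_one]
    · rw [map_zero]
      exact zero_le_one
  have e3 := hΛM _ ⟨_, hMT _ e1, rfl⟩ i
  have e4 : (2 : k) • T (π • ((2 : k) • z)) = (4 * π) • T z := by
    rw [map_smul, map_smul, smul_smul, smul_smul]
    congr 1
    ring
  rw [e4] at e3
  have h40 : (4 * π : k) ≠ 0 := by
    have : (4 : k) = 2 * 2 := by norm_num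
    rw [this]
    exact mul_ne_zero (mul_ne_zero h20 h20) hπ0
  have e5 : c • T z = (c / (4 * π)) • ((4 * π) • T z) := by
    rw [smul_smul, div_mul_cancel₀ _ h40]
  rw [e5, map_smul, Pi.smul_apply, smul_eq_mul, map_mul]
  refine mul_le_one' ?_ e3
  rw [map_div₀]
  exact div_le_one_of_le₀ hc zero_le'

end Pool.Agent.H307.AG458
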